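import Pool.Agent.H36.KBX.Coef
import Pool.Agent.H19.BFL.Stmts

/-!
# Minors of coefficient vectors and of gradients

If a minor of coefficient vectors of nonconstant monomials is not small, then there are points and
partial derivatives such that the minor of the gradients at these points is not small.
-/

set_option autoImplicit false

namespace Pool.FRT

open Finset Real MvPolynomial
open Pool.BFL

/-- Some `c × c` minor of the coefficient vectors (nonconstant monomials) of the vector
polynomials `P j` is larger than `2 ^ (-s)`. -/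
def Mnr {R c d : ℕ} (s : ℕ) (P : Fin R → Fin c → Pl d) : Prop :=
  ∃ (σ : Fin c → Fin R) (k : Fin c → (Fin d →₀ ℕ)), (∀ l, k l ≠ 0) ∧
    1 / (2 : ℝ) ^ s < |(Matrix.of fun i l => coeff (k l) (P (σ l) i)).det|

/-- A linear functional of a vector polynomial. -/
theorem lin_point (d K : ℕ) : ∃ C : ℝ, 1 ≤ C ∧ ∀ (c : ℕ) (L : (Fin c → ℝ) →ₗ[ℝ] ℝ)
    (Q : Fin c → Pl d) (k : Fin d →₀ ℕ), (∀ i, (Q i).totalDegree ≤ K) → k ≠ 0 →
    ∃ (e : Fin d) (x : Fin d → ℝ), (∀ a, |x a| ≤ 1) ∧
      |L (fun i => coeff k (Q i))| ≤ C * |L (fun i => eval x (pderiv e (Q i)))| := by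
  classical
  obtain ⟨C, hC0, hC⟩ := Pool.Agent.H36.KBX.coef_bound d K
  refine ⟨C + 1, by linarith, ?_⟩
  intro c L Q k hdeg hk
  obtain ⟨e, he⟩ : ∃ e, k e ≠ 0 := by
    by_contra h
    push Not at h
    exact hk (Finsupp.ext fun i => by simpa using h i)
  obtain ⟨D, hD⟩ : ∃ D : Pl d, D = ∑ i, MvPolynomial.C (L (Pi.single i 1)) * Q i := ⟨_, rfl⟩
  have hL : ∀ v : Fin c → ℝ, L v = ∑ i, L (Pi.single i 1) * v i := by
    intro v
    have h1 : v = ∑ i, v i • (Pi.single i 1 : Fin c → ℝ) := by
      funext j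
      simp [Finset.sum_apply, Pi.single_apply]
    conv_lhs => rw [h1]
    rw [map_sum]
    refine Finset.sum_congr rfl fun i _ => ?_
    rw [map_smul, smul_eq_mul, mul_comm]
  have hDdeg : D.totalDegree ≤ K := by
    rw [hD]
    refine (totalDegree_finsetSum _ _).trans (Finset.sup_le fun i _ => ?_)
    refine (totalDegree_mul _ _).trans ?_
    rw [totalDegree_C, zero_add]
    exact hdeg i
  have h1 : L (fun i => coeff k (Q i)) = coeff k D := by
    rw [hL, hD, coeff_sum]
    refine Finset.sum_congr rfl fun i _ => ?_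
    rw [coeff_C_mul]
  have h2 : ∀ x : Fin d → ℝ, L (fun i => eval x (pderiv e (Q i))) = eval x (pderiv e D) := by
    intro x
    rw [hL, hD, map_sum, map_sum]
    refine Finset.sum_congr rfl fun i _ => ?_
    rw [Derivation.leibniz, pderiv_C, smul_zero, add_zero, smul_eq_mul, map_mul, eval_C]
  rw [h1]
  have hk1 : k - Finsupp.single e 1 + Finsupp.single e 1 = k := by
    refine tsub_add_cancel_of_le ?_
    intro j
    by_cases h : j = e
    · subst h
      simpa using Nat.one_le_iff_ne_zero.2 he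
    · simp [Ne.symm h]
  have hco : coeff (k - Finsupp.single e 1) (pderiv e D) = coeff k D * (k e : ℝ) := by
    rw [coeff_pderiv, hk1]
    congr 1
    have h1 : (k - Finsupp.single e 1 : Fin d →₀ ℕ) e + 1 = k e := by
      have h2 := Nat.one_le_iff_ne_zero.2 he
      simp only [Finsupp.coe_tsub, Pi.sub_apply, Finsupp.single_eq_same]
      omega
    exact_mod_cast h1
  by_contra hcon
  push Not at hcon
  have hcon' : ∀ x : Fin d → ℝ, (∀ a, |x a| ≤ 1) →
      (C + 1) * |eval x (pderiv e D)| < |coeff k D| := by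
    intro x hx
    have := hcon e x hx
    rw [h2] at this
    exact this
  have h3 := hC (pderiv e D) (|coeff k D| / (C + 1))
    ((Pool.Agent.H50.PW.totalDegree_pderiv_le D e).trans hDdeg)
    (fun x hx => by
      rw [le_div_iff₀ (by linarith)]
      have := hcon' x hx
      linarith) (k - Finsupp.single e 1)
  rw [hco, abs_mul] at h3
  have h4 : (1 : ℝ) ≤ |(k e : ℝ)| := by
    rw [Nat.abs_cast]
    exact_mod_cast Nat.one_le_iff_ne_zero.2 he
  have h5 : |coeff k D| ≤ C * (|coeff k D| / (C + 1)) :=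
    (le_mul_of_one_le_right (abs_nonneg _) h4).trans h3
  have h6 : 0 < |coeff k D| := by
    have := hcon' (fun _ => 0) (fun _ => by simp)
    have h7 : 0 ≤ (C + 1) * |eval (fun _ => (0 : ℝ)) (pderiv e D)| := by positivity
    linarith
  rw [← mul_div_assoc, le_div_iff₀ (by linarith)] at h5
  nlinarith

/-- From a minor of coefficient vectors to a minor of gradients. -/
theorem minor_point (c d K : ℕ) : ∃ c₁ : ℕ, ∀ (P : Fin c → Fin c → Pl d)
    (k : Fin c → (Fin d →₀ ℕ)) (s : ℕ), (∀ l i, (P l i).totalDegree ≤ K) → (∀ l, k l ≠ 0) →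
    1 / (2 : ℝ) ^ s < |(Matrix.of fun i l => coeff (k l) (P l i)).det| →
    ∃ (e : Fin c → Fin d) (x : Fin c → Fin d → ℝ), (∀ l a, |x l a| ≤ 1) ∧
      (1 / 2 : ℝ) ^ (s + c₁) ≤
        |(Matrix.of fun i l => eval (x l) (pderiv (e l) (P l i))).det| := by
  classical
  obtain ⟨C, hC1, hC⟩ := lin_point d K
  obtain ⟨c₁, hc₁⟩ := pow_unbounded_of_one_lt (C ^ c) (by norm_num : (1 : ℝ) < 2)
  refine ⟨c₁, ?_⟩
  intro P k s hdeg hk hdet
  -- a first choice
  have hE : ∀ l, ∃ e : Fin d, k l e ≠ 0 := by
    intro l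
    by_contra h
    push Not at h
    exact hk l (Finsupp.ext fun i => by simpa using h i)
  choose e₀ he₀ using hE
  have key : ∀ m : ℕ, m ≤ c → ∃ (e : Fin c → Fin d) (x : Fin c → Fin d → ℝ),
      (∀ l a, |x l a| ≤ 1) ∧ |(Matrix.of fun i l => coeff (k l) (P l i)).det| ≤
        C ^ m * |(Matrix.of fun i (l : Fin c) => if (l : ℕ) < m then
          eval (x l) (pderiv (e l) (P l i)) else coeff (k l) (P l i)).det| := by
    intro m
    induction m with
    | zero =>
      intro _
      refine ⟨e₀, fun _ _ => 0, fun _ _ => by simp, ?_⟩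
      simp
    | succ m ih =>
      intro hm
      obtain ⟨e, x, hx, h1⟩ := ih (by omega)
      obtain ⟨l₀, hl₀⟩ : ∃ l₀ : Fin c, (l₀ : ℕ) = m := ⟨⟨m, by omega⟩, rfl⟩
      obtain ⟨B, hB⟩ : ∃ B : Matrix (Fin c) (Fin c) ℝ, B = Matrix.of fun i (l : Fin c) =>
        if (l : ℕ) < m then eval (x l) (pderiv (e l) (P l i)) else coeff (k l) (P l i) :=
        ⟨_, rfl⟩
      rw [← hB] at h1
      obtain ⟨e', x', hx', h2⟩ := hC c ((LinearMap.proj l₀).comp (Matrix.cramer B)) (P l₀) (k l₀)
        (hdeg l₀) (hk l₀)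
      simp only [LinearMap.comp_apply, LinearMap.proj_apply, Matrix.cramer_apply] at h2
      have h3 : B.updateCol l₀ (fun i => coeff (k l₀) (P l₀ i)) = B := by
        ext i l
        by_cases h : l = l₀
        · subst h
          rw [Matrix.updateCol_self, hB]
          simp [hl₀]
        · rw [Matrix.updateCol_ne h]
      have h4 : B.updateCol l₀ (fun i => eval x' (pderiv e' (P l₀ i))) =
          Matrix.of fun i (l : Fin c) => if (l : ℕ) < m + 1 then
          eval (Function.update x l₀ x' l) (pderiv (Function.update e l₀ e' l) (P l i))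
            else coeff (k l) (P l i) := by
        ext i l
        by_cases h : l = l₀
        · subst h
          rw [Matrix.updateCol_self]
          simp [hl₀]
        · rw [Matrix.updateCol_ne h, hB]
          have h5 : (l : ℕ) ≠ m := fun h6 => h (Fin.ext (h6.trans hl₀.symm))
          have h6 : ((l : ℕ) < m + 1) ↔ ((l : ℕ) < m) := by omega
          simp only [Matrix.of_apply, h6, Function.update_of_ne h]
      rw [h3, h4] at h2
      refine ⟨Function.update e l₀ e', Function.update x l₀ x', ?_, ?_⟩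
      · intro l a
        by_cases h : l = l₀
        · subst h
          rw [Function.update_self]
          exact hx' a
        · rw [Function.update_of_ne h]
          exact hx l a
      · refine h1.trans ?_
        rw [pow_succ, mul_assoc]
        exact mul_le_mul_of_nonneg_left h2 (by positivity)
  obtain ⟨e, x, hx, h1⟩ := key c le_rfl
  refine ⟨e, x, hx, ?_⟩
  have h2 : (Matrix.of fun i (l : Fin c) => if (l : ℕ) < c then
      eval (x l) (pderiv (e l) (P l i)) else coeff (k l) (P l i)) =
      Matrix.of fun i l => eval (x l) (pderiv (e l) (P l i)) := by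
    ext i l
    simp
  rw [h2] at h1
  by_contra hcon
  push Not at hcon
  have h3 : (0 : ℝ) < 2 ^ s := by positivity
  have h4 : (0 : ℝ) < 2 ^ c₁ := by positivity
  have h5 : C ^ c * |(Matrix.of fun i l => eval (x l) (pderiv (e l) (P l i))).det| ≤
      2 ^ c₁ * (1 / 2 : ℝ) ^ (s + c₁) :=
    mul_le_mul hc₁.le hcon.le (abs_nonneg _) h4.le
  have h6 : (2 : ℝ) ^ c₁ * (1 / 2 : ℝ) ^ (s + c₁) = 1 / 2 ^ s := by
    rw [pow_add, one_div_pow, one_div_pow]
    field_simp
  rw [h6] at h5
  linarith

end Pool.FRT
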