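import Pool.Agent.H49.FRT.Mnr
import Pool.Agent.H89.DYN.Walk
import Pool.Agent.H89.DYN.Lin
import Pool.Agent.H46.MIC.Ev

/-!
# The rank lemma

`M` is the exact height of a sample, `N j` the height given by another leaf of the same line,
`M = N j + P j (y)` where the polynomials `P j` are known given `G`, and `y` is full given `(M, G)`
and given `(N j, G)`. Then `M` is full given `G` on the event where a `c × c` minor of the
coefficient vectors of the `P j` is not small.
-/

set_option autoImplicit false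

namespace Pool.FRT

open Finset Real
open Pool.Agent.H49.Ent Pool.Agent.H32.Dense Pool.STK Pool.BFL
open Pool.MIC (law_True law_False Pb_nonneg Pb_not isLaw_ev ev_pos CH_two CH_ev_le)
open Pool.DYN (tup tup_succ walk_step psum emb eval_psum totalDegree_psum coeff_psum
  eval_pderiv_psum)
open Pool.POLY (jac eval_jac)

section walk

variable {Ω W C S T : Type} [Fintype Ω] [Fintype W] {p : Ω → ℝ} {cc : ℕ → Ω → C} {n : ℕ}
  {q : W → ℝ} {z : ℕ → W → Ω}

/-- The variables of the walk are jointly full. -/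
theorem walk_full (h : MC p cc n q z) (A : Ω → S) (B : Ω → T) {t : ℝ}
    (h0 : t ≤ CH p A B) (hc : ∀ j < n, t ≤ CH p A (cc j)) :
    ∀ j : ℕ, j ≤ n + 1 → j * t ≤ CH q (tup A z j) (fun w => B (z 0 w)) := by
  have hq := h.isLaw.nonneg
  intro j
  induction j with
  | zero => intro _; simpa using CH_nonneg hq _ _
  | succ j ih =>
    intro hj
    have h3 := ih (by omega)
    rw [tup_succ hq]
    have h4 : t ≤ CH q (fun w => A (z j w)) (fun w => (tup A z j w, B (z 0 w))) := by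
      rcases Nat.eq_zero_or_pos j with hj0 | hj0
      · subst hj0
        have e1 : CH q (fun w => A (z 0 w)) (fun w => (tup A z 0 w, B (z 0 w))) =
            CH q (fun w => A (z 0 w)) (fun w => B (z 0 w)) := by
          refine CH_congr hq (fun _ _ _ _ e => (Prod.ext_iff.1 e).1) (fun _ _ _ _ e =>
            (Prod.ext_iff.1 e).1) (fun _ _ _ _ e => (Prod.ext_iff.1 e).2) ?_
          intro w w' _ _ e
          refine Prod.ext ?_ e
          funext k
          exact k.elim0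
        rw [e1, (h.marg 0 (Nat.zero_le n)).CH A B]
        exact h0
      · obtain ⟨i, rfl⟩ : ∃ i, j = i + 1 := ⟨j - 1, by omega⟩
        have e1 := walk_step h A i (by omega)
        have e2 : CH q (fun w => A (z (i + 1) w)) (tup (fun ω => ω) z (i + 1)) ≤
            CH q (fun w => A (z (i + 1) w)) (fun w => (tup A z (i + 1) w, B (z 0 w))) := by
          refine CH_mono_cond hq ?_
          intro w w' _ _ e
          refine Prod.ext ?_ ?_
          · funext k
            have := congrFun e k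
            simp only [tup] at this ⊢
            rw [this]
          · have := congrFun e 0
            simp only [tup, Fin.val_zero] at this
            simp only [this]
        rw [e1] at e2
        exact (hc i (by omega)).trans e2
    push_cast
    linarith

end walk

/-- The partner in the step `t` of the walk. -/
def prt {R : ℕ} (hR : 0 < R) (t : ℕ) : Fin R := ⟨t % R, Nat.mod_lt _ hR⟩

/-- Columns and points of the jacobian of the alternating sum. -/
theorem psum_point (c d K R : ℕ) (hR : 0 < R) : ∃ c₁ : ℕ, ∀ (P : Fin R → Fin c → Pl d) (s : ℕ),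
    (∀ j i, (P j i).totalDegree ≤ K) → Mnr s P →
    ∃ (I : Fin c → Fin (2 * (c * R) * d)) (z : Fin (2 * (c * R) * d) → ℝ), (∀ a, |z a| ≤ 1) ∧
      (1 / 2 : ℝ) ^ (s + c₁) ≤ |MvPolynomial.eval z (jac (psum (fun (k : Fin (2 * (c * R))) i =>
        P (prt hR (k / 2)) i)) I)| := by
  classical
  obtain ⟨c₁, hc₁⟩ := minor_point c d K
  refine ⟨c₁, ?_⟩
  rintro P s hdeg ⟨σ, k, hk, hdet⟩
  obtain ⟨e, x, hx, h1⟩ := hc₁ (fun l i => P (σ l) i) k s (fun l i => hdeg _ _) hk hdet
  -- the copies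
  have hκ : ∀ l : Fin c, 2 * ((l : ℕ) * R + (σ l : ℕ)) < 2 * (c * R) := by
    intro l
    have h2 : (l : ℕ) * R + σ l < c * R := by
      calc (l : ℕ) * R + σ l < l * R + R := by have := (σ l).2; omega
        _ = (l + 1) * R := by ring
        _ ≤ c * R := Nat.mul_le_mul_right _ l.2
    omega
  obtain ⟨κ, hκ'⟩ : ∃ κ : Fin c → Fin (2 * (c * R)), ∀ l, (κ l : ℕ) = 2 * (l * R + σ l) :=
    ⟨fun l => ⟨_, hκ l⟩, fun l => rfl⟩
  have hinj : Function.Injective κ := by
    intro l l' h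
    have h2 := congrArg (fun a : Fin (2 * (c * R)) => (a : ℕ)) h
    simp only [hκ'] at h2
    have h3 : (l : ℕ) * R + σ l = l' * R + σ l' := by omega
    have h4 : ((l : ℕ) * R + σ l) / R = l := by
      rw [add_comm, Nat.add_mul_div_right _ _ hR, Nat.div_eq_of_lt (σ l).2, zero_add]
    have h5 : ((l' : ℕ) * R + σ l') / R = l' := by
      rw [add_comm, Nat.add_mul_div_right _ _ hR, Nat.div_eq_of_lt (σ l').2, zero_add]
    rw [h3, h5] at h4
    exact Fin.ext h4.symm
  have hprt : ∀ l, prt hR ((κ l : ℕ) / 2) = σ l := by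
    intro l
    refine Fin.ext ?_
    unfold prt
    simp only [hκ']
    rw [Nat.mul_div_cancel_left _ (by norm_num : 0 < 2), add_comm, Nat.add_mul_mod_self_right,
      Nat.mod_eq_of_lt (σ l).2]
  -- the point
  obtain ⟨z, hz⟩ : ∃ z : Fin (2 * (c * R) * d) → ℝ, z = fun a =>
      if h : ∃ l, κ l = (finProdFinEquiv.symm a).1 then x h.choose (finProdFinEquiv.symm a).2
      else 0 := ⟨_, rfl⟩
  have hz1 : ∀ l j, z (emb (κ l) j) = x l j := by
    intro l j
    rw [hz]
    unfold emb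
    simp only [Equiv.symm_apply_apply]
    have h : ∃ l', κ l' = κ l := ⟨l, rfl⟩
    rw [dif_pos h]
    have h2 : h.choose = l := hinj h.choose_spec
    rw [h2]
  refine ⟨fun l => emb (κ l) (e l), z, ?_, ?_⟩
  · intro a
    rw [hz]
    dsimp only
    split_ifs with h
    · exact hx _ _
    · simp
  · rw [eval_jac]
    have h2 : (Matrix.of fun (i : Fin c) (l : Fin c) => MvPolynomial.eval z
        (MvPolynomial.pderiv (emb (κ l) (e l)) (psum (fun (k : Fin (2 * (c * R))) i =>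
          P (prt hR (k / 2)) i) i))) =
        Matrix.of fun i l => MvPolynomial.eval (x l) (MvPolynomial.pderiv (e l) (P (σ l) i)) := by
      ext i l
      simp only [Matrix.of_apply]
      rw [eval_pderiv_psum]
      have h3 : ((-1 : ℝ)) ^ ((κ l : ℕ)) = 1 := by
        rw [hκ', pow_mul]
        norm_num
      rw [h3, one_mul, hprt, show (fun j => z (emb (κ l) j)) = x l from funext fun j => hz1 l j]
    rw [h2]
    exact h1

/-- Walk sums. -/
theorem walk_near {Ω Γ W : Type} [Fintype Ω] [Fintype W] {c d R : ℕ} (hR : 0 < R)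
    {p : Ω → ℝ} {X n : ℕ} {q : W → ℝ} {z : ℕ → W → Ω} {y : Ω → Fin d → ℤ} {M : Ω → Fin c → ℤ}
    {N : Fin R → Ω → Fin c → ℤ} {G : Ω → Γ} {P : Γ → Fin R → Fin c → Pl d} {C₀ : ℝ}
    (hM : ∀ ω, 0 < p ω → ∀ j i, |((M ω i : ℤ) : ℝ) - (N j ω i : ℤ) - 2 ^ X *
      MvPolynomial.eval (fun a => ((y ω a : ℤ) : ℝ) / 2 ^ X) (P (G ω) j i)| ≤ C₀)
    (h : MC p (fun t ω => if t % 2 = 0 then (N (prt hR (t / 2)) ω, G ω) else (M ω, G ω)) n q z)
    (w : W) (hw : 0 < q w) : ∀ t : ℕ, 2 * t ≤ n → G (z (2 * t) w) = G (z 0 w) ∧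
      ∀ i, |((M (z (2 * t) w) i : ℤ) : ℝ) - ((M (z 0 w) i : ℤ) : ℝ) + 2 ^ X *
        ∑ k ∈ range (2 * t), (-1) ^ k * MvPolynomial.eval
          (fun a => ((y (z k w) a : ℤ) : ℝ) / 2 ^ X) (P (G (z 0 w)) (prt hR (k / 2)) i)| ≤
          2 * t * C₀ := by
  intro t
  induction t with
  | zero =>
    intro _
    refine ⟨rfl, fun i => ?_⟩
    simp
  | succ t ih =>
    intro ht
    obtain ⟨h1, h2⟩ := ih (by omega)
    have hpos : ∀ k ≤ n, 0 < p (z k w) := fun k hk => (h.marg k hk).pos h.isLaw.nonneg hw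
    have h3 := h.same w hw (2 * t) (by omega)
    have h4 := h.same w hw (2 * t + 1) (by omega)
    have e1 : (2 * t) % 2 = 0 := by omega
    have e2 : ¬ (2 * t + 1) % 2 = 0 := by omega
    have e3 : 2 * t / 2 = t := by omega
    have e4 : (2 * t + 1) / 2 = t := by omega
    simp only [if_pos e1, if_neg e2, e3, Prod.mk.injEq] at h3 h4
    have hG1 : G (z (2 * t + 1) w) = G (z 0 w) := h3.2.symm.trans h1
    have hG2 : G (z (2 * (t + 1)) w) = G (z 0 w) := by
      rw [show 2 * (t + 1) = 2 * t + 1 + 1 by ring]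
      exact h4.2.symm.trans hG1
    refine ⟨hG2, fun i => ?_⟩
    have g1 := hM (z (2 * t) w) (hpos _ (by omega)) (prt hR t) i
    have g2 := hM (z (2 * t + 1) w) (hpos _ (by omega)) (prt hR t) i
    have g3 := h2 i
    rw [h1] at g1
    rw [hG1] at g2
    rw [← congrFun h3.1 i] at g2
    rw [show 2 * (t + 1) = 2 * t + 1 + 1 by ring, Finset.sum_range_succ, Finset.sum_range_succ, e3,
      e4, ← congrFun h4.1 i]
    have e5 : ((-1 : ℝ)) ^ (2 * t) = 1 := by rw [pow_mul]; norm_num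
    have e6 : ((-1 : ℝ)) ^ (2 * t + 1) = -1 := by rw [pow_succ, e5]; norm_num
    rw [e5, e6]
    push_cast
    rw [abs_le] at g1 g2 g3 ⊢
    constructor <;> linarith

/-- **The rank lemma.** -/
theorem rank_thm (c d K R : ℕ) : ∃ C : ℝ, 1 ≤ C ∧ ∀ (Ω Γ κ' : Type) [Fintype Ω] (p : Ω → ℝ)
    (X A b s u : ℕ) (y : Ω → Fin d → ℤ) (M : Ω → Fin c → ℤ) (N : Fin R → Ω → Fin c → ℤ)
    (G : Ω → Γ) (G' : Ω → κ') (P : Γ → Fin R → Fin c → Pl d) (θ C₀ : ℝ), IsLaw p → 1 ≤ u →
    0 ≤ θ → 0 ≤ C₀ →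
    (∀ ω, 0 < p ω → ∀ i, |((y ω i : ℤ) : ℝ)| ≤ 2 ^ A * 2 ^ X) →
    (∀ ω, 0 < p ω → ∀ j i, (P (G ω) j i).totalDegree ≤ K) →
    (∀ ω, 0 < p ω → ∀ j i k, k ≠ 0 → |MvPolynomial.coeff k (P (G ω) j i)| ≤ 2 ^ b) →
    (∀ ω, 0 < p ω → ∀ j i, |((M ω i : ℤ) : ℝ) - (N j ω i : ℤ) - 2 ^ X *
      MvPolynomial.eval (fun a => ((y ω a : ℤ) : ℝ) / 2 ^ X) (P (G ω) j i)| ≤ C₀) →
    d * (X * Real.log 2) - θ ≤ CH p y (fun ω => (M ω, G ω)) →
    (∀ j, d * (X * Real.log 2) - θ ≤ CH p y (fun ω => (N j ω, G ω))) →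
    Det p G G' →
    Pb p (fun ω => Mnr s (P (G ω))) * (c * (X * Real.log 2)) ≤ CH p M G' +
      (C * (s + b + u + A + 1) + C * (X * (θ + A + 1) / u) +
        c * Real.log (8 * (c * R) * C₀ + 3)) := by
  classical
  have hl2 : 0 < Real.log 2 := Real.log_pos (by norm_num)
  have hl2' : Real.log 2 ≤ 1 := by linarith [Real.log_two_lt_d9]
  -- no partner
  rcases Nat.eq_zero_or_pos (c * R) with hcR | hcR
  · refine ⟨1, le_rfl, ?_⟩
    intro Ω Γ κ' _ p X A b s u y M N G G' P θ C₀ hp hu hθ hC₀ _ _ _ _ _ _ _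
    have h1 : Pb p (fun ω => Mnr s (P (G ω))) * (c * (X * Real.log 2)) = 0 := by
      rcases Nat.eq_zero_or_pos c with hc | hc
      · have h2 : (c : ℝ) = 0 := by exact_mod_cast hc
        rw [h2, zero_mul, mul_zero]
      · have hR0 : R = 0 := by
          rcases Nat.mul_eq_zero.1 hcR with h | h
          · omega
          · exact h
        have h3 : ∀ ω, ¬ Mnr s (P (G ω)) := by
          rintro ω ⟨σ, -⟩
          have := (σ ⟨0, hc⟩).2
          omega
        have h4 : Pb p (fun ω => Mnr s (P (G ω))) = 0 := by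
          unfold Pb
          exact Finset.sum_eq_zero fun ω _ => by rw [if_neg (h3 ω)]
        rw [h4, zero_mul]
    rw [h1]
    have h2 := CH_nonneg hp.nonneg M G'
    have h3 : 0 ≤ Real.log (8 * (c * R) * C₀ + 3) := Real.log_nonneg (by
      have : 0 ≤ 8 * ((c : ℝ) * R) * C₀ := by positivity
      linarith)
    positivity
  have hc : 0 < c := Nat.pos_of_ne_zero fun h => by subst h; simp at hcR
  have hR : 0 < R := Nat.pos_of_ne_zero fun h => by subst h; simp at hcR
  obtain ⟨nn, hnn⟩ : ∃ nn : ℕ, nn = 2 * (c * R) := ⟨_, rfl⟩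
  obtain ⟨c₁, hc₁⟩ := psum_point c d K R hR
  obtain ⟨D, hD1, hD⟩ := Pool.POLY.poly_ent (nn * d) c K
  refine ⟨D * (3 * (nn * d) + nn + c₁ + 2 + nn), ?_, ?_⟩
  · have h0 : (0 : ℝ) ≤ nn := Nat.cast_nonneg _
    have h1 : (0 : ℝ) ≤ c₁ := Nat.cast_nonneg _
    have h2 : (0 : ℝ) ≤ nn * d := by positivity
    nlinarith
  intro Ω Γ κ' _ p X A b s u y M N G G' P θ C₀ hp hu hθ hC₀ hy hdeg hcf hM hH1 hH2 hdet
  have hX0 : (0 : ℝ) ≤ X := Nat.cast_nonneg _
  have hA0 : (0 : ℝ) ≤ A := Nat.cast_nonneg _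
  have hs0 : (0 : ℝ) ≤ s := Nat.cast_nonneg _
  have hb0 : (0 : ℝ) ≤ b := Nat.cast_nonneg _
  have hc10 : (0 : ℝ) ≤ c₁ := Nat.cast_nonneg _
  have hnn0 : (0 : ℝ) ≤ nn := Nat.cast_nonneg _
  have hnd0 : (0 : ℝ) ≤ nn * d := by positivity
  have hu1 : (1 : ℝ) ≤ u := by exact_mod_cast hu
  have hu0 : (0 : ℝ) < u := by linarith
  have hC₁0 : 0 ≤ 8 * ((c : ℝ) * R) * C₀ := by positivity
  have hlog0 : 0 ≤ Real.log (8 * (c * R) * C₀ + 3) := Real.log_nonneg (by linarith)
  -- the chain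
  obtain ⟨W, hW, q, z, hMC⟩ := Pool.Agent.H67.BFL.mch_thm Ω ((Fin c → ℤ) × Γ) p
    (fun t ω => if t % 2 = 0 then (N (prt hR (t / 2)) ω, G ω) else (M ω, G ω)) nn hp
  have hq := hMC.isLaw.nonneg
  have hq1 := hMC.isLaw.sum_one
  have hpos : ∀ w, 0 < q w → ∀ k ≤ nn, 0 < p (z k w) :=
    fun w hw k hk => (hMC.marg k hk).pos hq hw
  have hnear := fun w hw => walk_near hR hM hMC w hw (c * R) (by omega)
  rw [← hnn] at hnear
  -- the events
  obtain ⟨E, hE⟩ : ∃ E : W → Prop, E = fun w => Mnr s (P (G (z 0 w))) := ⟨_, rfl⟩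
  have hPE : Pb p (fun ω => Mnr s (P (G ω))) = Pb q E := by
    rw [hE]
    exact (Pool.Agent.H67.BFL.Pb_marg (hMC.marg 0 (Nat.zero_le _)) _).symm
  rw [hPE]
  have hE0 := Pb_nonneg hq E
  rcases hE0.eq_or_lt with hz | hEp
  · rw [← hz, zero_mul]
    have := CH_nonneg hp.nonneg M G'
    have h3 : 0 ≤ D * (3 * (nn * d) + nn + c₁ + 2 + nn) := by positivity
    have h4 : 0 ≤ D * (3 * (nn * d) + nn + c₁ + 2 + nn) * (s + b + u + A + 1) := by positivity
    have h5 : 0 ≤ D * (3 * (nn * d) + nn + c₁ + 2 + nn) * (X * (θ + A + 1) / u) := by positivity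
    have h6 : 0 ≤ c * Real.log (8 * (c * R) * C₀ + 3) := by positivity
    linarith
  -- the conditional law
  obtain ⟨q', hq'⟩ : ∃ q' : W → ℝ, q' = cond q E True := ⟨_, rfl⟩
  have hqlaw : IsLaw q' := by rw [hq']; exact isLaw_ev hMC.isLaw E hEp
  have hqpos : ∀ w, 0 < q' w → 0 < q w ∧ E w := by
    intro w hw
    rw [hq'] at hw
    exact ev_pos hq E hw
  obtain ⟨w₀, hw₀⟩ : ∃ w, 0 < q' w := by
    by_contra h
    push Not at h
    have := Finset.sum_nonpos fun w (_ : w ∈ univ) => h w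
    rw [hqlaw.sum_one] at this
    linarith
  -- the polynomials
  obtain ⟨gd, hgd⟩ : ∃ gd : Γ → Prop, gd = fun v => (∀ j i, (P v j i).totalDegree ≤ K) ∧
      (∀ j i k, k ≠ 0 → |MvPolynomial.coeff k (P v j i)| ≤ 2 ^ b) ∧ Mnr s (P v) := ⟨_, rfl⟩
  have hgood : ∀ w, 0 < q' w → gd (G (z 0 w)) := by
    intro w hw
    obtain ⟨h1, h2⟩ := hqpos w hw
    have h3 := hpos w h1 0 (Nat.zero_le _)
    rw [hE] at h2
    rw [hgd]
    exact ⟨hdeg _ h3, hcf _ h3, h2⟩
  have hmnr : ∀ v, Mnr s (P v) →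
      Mnr s (fun j i => P v j i - MvPolynomial.C (MvPolynomial.coeff 0 (P v j i))) := by
    rintro v ⟨σ, k, hk, h1⟩
    refine ⟨σ, k, hk, ?_⟩
    have h2 : (Matrix.of fun i l => MvPolynomial.coeff (k l) (P v (σ l) i -
        MvPolynomial.C (MvPolynomial.coeff 0 (P v (σ l) i)))) =
        Matrix.of fun (i : Fin c) l => MvPolynomial.coeff (k l) (P v (σ l) i) := by
      ext i l
      simp only [Matrix.of_apply]
      rw [MvPolynomial.coeff_sub, MvPolynomial.coeff_C, if_neg (Ne.symm (hk l)), sub_zero]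
    rw [h2]
    exact h1
  have hI₀ : ∃ I₀ : Fin c → Fin (nn * d), True := by
    have h1 := hgood w₀ hw₀
    rw [hgd] at h1
    subst hnn
    obtain ⟨I, -⟩ := hc₁ (P (G (z 0 w₀))) s h1.1 h1.2.2
    exact ⟨I, trivial⟩
  obtain ⟨I₀, -⟩ := hI₀
  have hex : ∀ v : Γ, ∃ (S : Fin nn → Fin c → Pl d) (I : Fin c → Fin (nn * d)),
      (∀ k i, (S k i).totalDegree ≤ K) ∧ (∀ k i m, |MvPolynomial.coeff m (S k i)| ≤ 2 ^ b) ∧
      (gd v → (∀ k i, S k i = P v (prt hR (k / 2)) i -
        MvPolynomial.C (MvPolynomial.coeff 0 (P v (prt hR (k / 2)) i))) ∧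
        ∃ x : Fin (nn * d) → ℝ, (∀ a, |x a| ≤ 1) ∧
          (1 / 2 : ℝ) ^ (s + c₁) ≤ |MvPolynomial.eval x (jac (psum S) I)|) := by
    intro v
    by_cases hv : gd v
    · have hv' := hv
      rw [hgd] at hv'
      obtain ⟨h1, h2, h3⟩ := hv'
      have hdeg' : ∀ j i, (P v j i - MvPolynomial.C (MvPolynomial.coeff 0 (P v j i))).totalDegree ≤
          K := by
        intro j i
        refine (MvPolynomial.totalDegree_sub _ _).trans ?_
        rw [MvPolynomial.totalDegree_C]
        simpa using h1 j i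
      have hcf' : ∀ j i k, |MvPolynomial.coeff k (P v j i -
          MvPolynomial.C (MvPolynomial.coeff 0 (P v j i)))| ≤ 2 ^ b := by
        intro j i k
        rw [MvPolynomial.coeff_sub, MvPolynomial.coeff_C]
        by_cases hk : k = 0
        · subst hk
          simp
        · rw [if_neg (Ne.symm hk), sub_zero]
          exact h2 j i k hk
      subst hnn
      obtain ⟨I, x, hx1, hx2⟩ := hc₁ (fun j i => P v j i -
        MvPolynomial.C (MvPolynomial.coeff 0 (P v j i))) s hdeg' (hmnr v h3)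
      exact ⟨fun k i => P v (prt hR (k / 2)) i -
        MvPolynomial.C (MvPolynomial.coeff 0 (P v (prt hR (k / 2)) i)), I,
        fun k i => hdeg' _ _, fun k i m => hcf' _ _ _, fun _ => ⟨fun _ _ => rfl, x, hx1, hx2⟩⟩
    · refine ⟨fun _ _ => 0, I₀, by simp, fun k i m => ?_, fun h => absurd h hv⟩
      rw [MvPolynomial.coeff_zero, abs_zero]
      positivity
  choose S I hS1 hS2 hS3 using hex
  -- the vector
  obtain ⟨Y, hY⟩ : ∃ Y : W → Fin (nn * d) → ℤ, Y = fun w t =>
    y (z (finProdFinEquiv.symm t).1 w) (finProdFinEquiv.symm t).2 := ⟨_, rfl⟩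
  have hYe : ∀ w (k : Fin nn) j, Y w (emb k j) = y (z k w) j := by
    intro w k j
    rw [hY]
    dsimp only [emb]
    rw [Equiv.symm_apply_apply]
  have hYb : ∀ w, 0 < q w → ∀ t, |((Y w t : ℤ) : ℝ)| ≤ 2 ^ A * 2 ^ X := by
    intro w hw t
    rw [hY]
    exact hy _ (hpos w hw _ (by have := (finProdFinEquiv.symm t).1.2; omega)) _
  obtain ⟨B, hB⟩ : ∃ B : W → (Fin c → ℤ) × Γ, B = fun w => (M (z 0 w), G (z 0 w)) := ⟨_, rfl⟩
  have hYfull : nn * (d * (X * Real.log 2) - θ) ≤ CH q Y B := by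
    have h1 := walk_full hMC y (fun ω => (M ω, G ω)) (t := d * (X * Real.log 2) - θ) hH1
      (fun j _ => by
        by_cases hj : j % 2 = 0
        · simp only [if_pos hj]
          exact hH2 _
        · simp only [if_neg hj]
          exact hH1) nn (by omega)
    rw [hB]
    refine h1.trans (CH_mono_left hq ?_)
    intro w w' _ _ e
    have e1 := (Prod.ext_iff.1 e).1
    funext k j
    have := congrFun e1 (emb k j)
    simp only [hYe] at this
    exact this
  have hPbE1 : Pb q E ≤ 1 := by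
    have h1 := Pb_not hq1 E
    have h2 := Pb_nonneg hq (fun w => ¬ E w)
    linarith
  have hbd : ∀ r : W → ℝ, (∀ w, 0 ≤ r w) → ∑ w, r w = 1 → (∀ w, 0 < r w → 0 < q w) →
      CH r Y B ≤ (nn * d) * ((X + (A + 3)) * Real.log 2) := by
    intro r hr0 hr1 hrp
    have h1 := CH_le_vec hr0 hr1 Y B (fun _ => 2 * (2 ^ A * 2 ^ X))
      (fun w w' h h' _ k => by
        have h2 := hYb w (hrp w h) k
        have h3 := hYb w' (hrp w' h') k
        push_cast
        rw [abs_le] at h2 h3 ⊢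
        constructor <;> linarith)
    rw [Ex_const hr1] at h1
    push_cast at h1
    refine h1.trans (mul_le_mul_of_nonneg_left ?_ hnd0)
    have h4 : (2 : ℝ) * (2 * (2 ^ A * 2 ^ X)) + 1 ≤ 2 ^ (X + (A + 3)) := by
      have h5 : (1 : ℝ) ≤ 2 ^ A * 2 ^ X := by
        have h6 : (1 : ℝ) ≤ 2 ^ A := one_le_pow₀ (by norm_num)
        have h7 : (1 : ℝ) ≤ 2 ^ X := one_le_pow₀ (by norm_num)
        nlinarith
      have h8 : (2 : ℝ) ^ (X + (A + 3)) = 8 * (2 ^ A * 2 ^ X) := by ring
      rw [h8]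
      linarith
    have h9 := Real.log_le_log (by positivity) h4
    rw [Real.log_pow] at h9
    push_cast at h9
    exact h9
  -- the deficiency
  obtain ⟨e, he⟩ : ∃ e : ℝ, e = (nn * θ + nn * d * (A + 3)) / Pb q E := ⟨_, rfl⟩
  have he0 : 0 ≤ e := by rw [he]; positivity
  have hEc : CH q Y B = CH q Y (fun w => (B w, E w)) := by
    refine CH_congr hq (fun _ _ _ _ h => (Prod.ext_iff.1 h).1)
      (fun _ _ _ _ h => (Prod.ext_iff.1 h).1) ?_ (fun _ _ _ _ h => (Prod.ext_iff.1 h).1)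
    intro w w' _ _ h
    have h1 : G (z 0 w) = G (z 0 w') := by
      rw [hB] at h
      exact (Prod.ext_iff.1 h).2
    refine Prod.ext h ?_
    show E w = E w'
    rw [hE]
    simp only [h1]
  have hdef : (nn * d : ℕ) * (X * Real.log 2) - e ≤ CH q' Y B := by
    have h1 := CH_two hq Y B E
    rw [← hEc, ← hq'] at h1
    have h2 : Pb q (fun w => ¬ E w) * CH (cond q E False) Y B ≤
        Pb q (fun w => ¬ E w) * ((nn * d) * ((X + (A + 3)) * Real.log 2)) := by
      have h3 := Pb_nonneg hq (fun w => ¬ E w)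
      rcases h3.eq_or_lt with h4 | h4
      · rw [← h4, zero_mul, zero_mul]
      · refine mul_le_mul_of_nonneg_left ?_ h3
        refine hbd _ (cond_nonneg hq E False) (sum_cond q E ?_) fun w hw =>
          ((cond_pos_iff hq E False w).1 hw).1
        rw [law_False]
        exact h4.ne'
    have h5 := Pb_not hq1 E
    have h6 : Pb q (fun w => ¬ E w) = 1 - Pb q E := by linarith
    rw [h6] at h2 h1
    have h7 : nn * (d * (X * Real.log 2) - θ) ≤ Pb q E * CH q' Y B +
        (1 - Pb q E) * ((nn * d) * ((X + (A + 3)) * Real.log 2)) := by linarith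
    have h8 : (nn * d : ℝ) * ((A + 3) * Real.log 2) ≤ nn * d * (A + 3) :=
      mul_le_mul_of_nonneg_left (mul_le_of_le_one_right (by linarith) hl2') hnd0
    have h9 : (1 - Pb q E) * ((nn * d) * ((A + 3) * Real.log 2)) ≤ nn * d * (A + 3) := by
      refine (mul_le_of_le_one_left ?_ (by linarith)).trans h8
      positivity
    have h10 : Pb q E * ((nn * d) * (X * Real.log 2)) - (nn * θ + nn * d * (A + 3)) ≤
        Pb q E * CH q' Y B := by
      have h11 : (1 - Pb q E) * ((nn * d) * ((X + (A + 3)) * Real.log 2)) =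
          (1 - Pb q E) * ((nn * d) * (X * Real.log 2)) +
            (1 - Pb q E) * ((nn * d) * ((A + 3) * Real.log 2)) := by
        ring
      rw [h11] at h7
      linarith
    have h12 : Pb q E * e = nn * θ + nn * d * (A + 3) := by
      rw [he]
      field_simp
    have h13 : Pb q E * ((nn * d) * (X * Real.log 2) - e) ≤ Pb q E * CH q' Y B := by
      rw [mul_sub, h12]
      exact h10
    push_cast
    exact le_of_mul_le_mul_left h13 hEp
  -- the coefficients of the sum
  have hnB : (nn : ℝ) * 2 ^ b ≤ 2 ^ (b + nn) := by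
    rw [pow_add, mul_comm]
    refine mul_le_mul_of_nonneg_left ?_ (by positivity)
    exact_mod_cast Nat.lt_two_pow_self.le
  have hmain := hD W ((Fin c → ℤ) × Γ) q' X A (s + c₁) (b + nn) u Y B (fun x => psum (S x.2))
    (fun x => I x.2) e hqlaw hu he0 (fun w hw => hYb w (hqpos w hw).1)
    (fun x j => totalDegree_psum _ (hS1 x.2) j)
    (fun x j m => (coeff_psum _ (hS2 x.2) j m).trans hnB)
    (fun w hw => by
      obtain ⟨_, x, hx1, hx2⟩ := hS3 (G (z 0 w)) (hgood w hw)
      refine ⟨x, fun a => (hx1 a).trans (one_le_pow₀ (by norm_num)), ?_⟩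
      rw [hB]
      exact hx2) hdef
  obtain ⟨V, hV⟩ : ∃ V : W → Fin c → ℤ, V = fun w j => ⌊2 ^ X * MvPolynomial.eval
    (fun i => ((Y w i : ℤ) : ℝ) / 2 ^ X) (psum (S (B w).2) j)⌋ := ⟨_, rfl⟩
  rw [← hV] at hmain
  -- the sum is the difference of the heights
  have hVM : ∀ w, 0 < q' w → ∀ i, |(2 : ℝ) ^ X * MvPolynomial.eval
      (fun i => ((Y w i : ℤ) : ℝ) / 2 ^ X) (psum (S (B w).2) i) -
      (((M (z 0 w) i : ℤ) : ℝ) - ((M (z nn w) i : ℤ) : ℝ))| ≤ nn * C₀ := by
    intro w hw i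
    obtain ⟨_, h1⟩ := hnear w (hqpos w hw).1
    have h2 := h1 i
    have h3 : MvPolynomial.eval (fun i => ((Y w i : ℤ) : ℝ) / 2 ^ X) (psum (S (B w).2) i) =
        ∑ k ∈ range nn, (-1) ^ k * MvPolynomial.eval
          (fun a => ((y (z k w) a : ℤ) : ℝ) / 2 ^ X) (P (G (z 0 w)) (prt hR (k / 2)) i) := by
      have h4 := (hS3 (G (z 0 w)) (hgood w hw)).1
      have h5 : (B w).2 = G (z 0 w) := by rw [hB]
      rw [eval_psum, h5]
      simp only [hYe, h4, map_sub, MvPolynomial.eval_C, mul_sub]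
      rw [Finset.sum_sub_distrib, ← Finset.sum_range (fun k => (-1 : ℝ) ^ k * MvPolynomial.eval
          (fun a => ((y (z k w) a : ℤ) : ℝ) / 2 ^ X) (P (G (z 0 w)) (prt hR (k / 2)) i)),
        ← Finset.sum_range (fun k => (-1 : ℝ) ^ k *
          MvPolynomial.coeff 0 (P (G (z 0 w)) (prt hR (k / 2)) i))]
      have h6 : ∀ m : ℕ, ∑ k ∈ range (2 * m), (-1 : ℝ) ^ k *
          MvPolynomial.coeff 0 (P (G (z 0 w)) (prt hR (k / 2)) i) = 0 := by
        intro m
        induction m with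
        | zero => simp
        | succ m ih =>
          rw [show 2 * (m + 1) = 2 * m + 1 + 1 by ring, Finset.sum_range_succ,
            Finset.sum_range_succ, ih]
          have e5 : ((-1 : ℝ)) ^ (2 * m) = 1 := by rw [pow_mul]; norm_num
          have e6 : ((-1 : ℝ)) ^ (2 * m + 1) = -1 := by rw [pow_succ, e5]; norm_num
          have e7 : (2 * m + 1) / 2 = m := by omega
          have e8 : 2 * m / 2 = m := by omega
          rw [e5, e6, e7, e8]
          ring
      rw [hnn, h6, sub_zero]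
    rw [h3]
    have h4 : (nn : ℝ) * C₀ = 2 * ((c * R : ℕ) : ℝ) * C₀ := by
      rw [hnn]
      push_cast
      ring
    rw [h4]
    rw [abs_le] at h2 ⊢
    constructor <;> linarith
  have hVn : CH q' V B ≤ CH q' (fun w => M (z nn w)) B +
      c * Real.log (8 * (c * R) * C₀ + 3) := by
    have h1 := CH_le_add hqlaw.nonneg V (fun w => M (z nn w)) B
    have h2 := CH_le_vec hqlaw.nonneg hqlaw.sum_one V (fun w => (M (z nn w), B w))
      (fun _ => 2 * (nn * C₀) + 1) (fun w w' h h' hh k => by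
        obtain ⟨e1, e2⟩ := Prod.ext_iff.1 hh
        simp only at e1 e2
        have g1 := hVM w h k
        have g2 := hVM w' h' k
        have e3 : M (z 0 w) = M (z 0 w') := by
          rw [hB] at e2
          exact (Prod.ext_iff.1 e2).1
        rw [hV]
        simp only
        have g5 : |(2 : ℝ) ^ X * MvPolynomial.eval
            (fun i => ((Y w i : ℤ) : ℝ) / 2 ^ X) (psum (S (B w).2) k) -
            2 ^ X * MvPolynomial.eval
            (fun i => ((Y w' i : ℤ) : ℝ) / 2 ^ X) (psum (S (B w').2) k)| ≤ 2 * (nn * C₀) := by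
          rw [e1, e3] at g1
          rw [abs_le] at g1 g2 ⊢
          constructor <;> linarith
        have g6 := Pool.Agent.H32.Dense.floor_sub_le_pair
          ((2 : ℝ) ^ X * MvPolynomial.eval
            (fun i => ((Y w i : ℤ) : ℝ) / 2 ^ X) (psum (S (B w).2) k))
          (2 ^ X * MvPolynomial.eval
            (fun i => ((Y w' i : ℤ) : ℝ) / 2 ^ X) (psum (S (B w').2) k))
        exact g6.trans (by linarith))
    rw [Ex_const hqlaw.sum_one] at h2
    have h3 : (2 : ℝ) * (2 * (nn * C₀) + 1) + 1 = 8 * (c * R) * C₀ + 3 := by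
      rw [hnn]
      push_cast
      ring
    rw [h3] at h2
    linarith
  have h1 : Pb q E * CH q' (fun w => M (z nn w)) B ≤ CH q (fun w => M (z nn w)) B := by
    rw [hq']
    exact CH_ev_le hq _ _ E
  have h2 : CH q (fun w => M (z nn w)) B ≤ CH p M G' := by
    have e1 : CH q (fun w => M (z nn w)) B ≤ CH q (fun w => M (z nn w)) (fun w => G' (z nn w)) := by
      refine CH_mono_cond hq fun w w' hw hw' e => ?_
      have g1 := (hnear w hw).1
      have g2 := (hnear w' hw').1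
      refine hdet _ _ (hpos w hw _ le_rfl) (hpos w' hw' _ le_rfl) ?_
      rw [g1, g2]
      rw [hB] at e
      exact (Prod.ext_iff.1 e).2
    rw [(hMC.marg nn le_rfl).CH M G'] at e1
    exact e1
  have h3 : Pb q E * (c * (X * Real.log 2)) ≤ Pb q E * (CH q' (fun w => M (z nn w)) B +
      c * Real.log (8 * (c * R) * C₀ + 3) + D * ((s + c₁ : ℕ) + (b + nn : ℕ) + u + A + 1) *
      Real.log 2 + D * (X * (e + A + 1) / u)) := mul_le_mul_of_nonneg_left (by linarith) hE0
  have h4 : Pb q E * (c * Real.log (8 * (c * R) * C₀ + 3)) ≤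
      c * Real.log (8 * (c * R) * C₀ + 3) :=
    mul_le_of_le_one_left (by positivity) hPbE1
  have hD0 : 0 ≤ D := by linarith
  have h5 : Pb q E * (D * ((s + c₁ : ℕ) + (b + nn : ℕ) + u + A + 1) * Real.log 2) ≤
      D * (3 * (nn * d) + nn + c₁ + 2 + nn) * (s + b + u + A + 1) := by
    have g1 : (0 : ℝ) ≤ D * ((s + c₁ : ℕ) + (b + nn : ℕ) + u + A + 1) := by positivity
    refine (mul_le_of_le_one_left (by positivity) hPbE1).trans ?_
    refine (mul_le_of_le_one_right g1 hl2').trans ?_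
    rw [mul_assoc]
    refine mul_le_mul_of_nonneg_left ?_ hD0
    push_cast
    have g2 : (c₁ : ℝ) * 1 ≤ c₁ * (s + b + u + A + 1) :=
      mul_le_mul_of_nonneg_left (by linarith) hc10
    have g4 : (nn : ℝ) * 1 ≤ nn * (s + b + u + A + 1) :=
      mul_le_mul_of_nonneg_left (by linarith) hnn0
    have g3 : (0 : ℝ) ≤ 3 * (nn * d) * (s + b + u + A + 1) := by positivity
    have g5 : (0 : ℝ) ≤ nn * (s + b + u + A + 1) := by positivity
    linarith
  have h6 : Pb q E * (D * (X * (e + A + 1) / u)) ≤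
      D * (3 * (nn * d) + nn + c₁ + 2 + nn) * (X * (θ + A + 1) / u) := by
    have g1 : Pb q E * e = nn * θ + nn * d * (A + 3) := by
      rw [he]
      field_simp
    have g2 : Pb q E * (D * (X * (e + A + 1) / u)) =
        D * (X * (Pb q E * e + Pb q E * (A + 1)) / u) := by ring
    rw [g2, g1, mul_assoc D (3 * (nn * d) + nn + c₁ + 2 + nn : ℝ)]
    refine mul_le_mul_of_nonneg_left ?_ hD0
    rw [← mul_div_assoc]
    refine div_le_div_of_nonneg_right ?_ hu0.le
    have g3 : Pb q E * (A + 1) ≤ A + 1 := mul_le_of_le_one_left (by linarith) hPbE1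
    have g4 : (3 * (nn * d) + nn + c₁ + 2 + nn) * (X * (θ + A + 1)) =
        X * ((3 * (nn * d) + nn + c₁ + 2 + nn) * (θ + A + 1)) := by ring
    rw [g4]
    refine mul_le_mul_of_nonneg_left ?_ hX0
    have g5 : 0 ≤ (3 * (nn * d) + nn + c₁ + 1 : ℝ) * θ := by positivity
    have g6 : 0 ≤ (nn + c₁ + 1 + nn : ℝ) * (A + 1) := by positivity
    have g7 : 0 ≤ (nn * d : ℝ) * A := by positivity
    nlinarith
  have h7 : Pb q E * (CH q' (fun w => M (z nn w)) B +
      c * Real.log (8 * (c * R) * C₀ + 3) + D * ((s + c₁ : ℕ) + (b + nn : ℕ) + u + A + 1) *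
      Real.log 2 + D * (X * (e + A + 1) / u)) = Pb q E * CH q' (fun w => M (z nn w)) B +
      Pb q E * (c * Real.log (8 * (c * R) * C₀ + 3)) +
      Pb q E * (D * ((s + c₁ : ℕ) + (b + nn : ℕ) + u + A + 1) * Real.log 2) +
      Pb q E * (D * (X * (e + A + 1) / u)) := by ring
  rw [h7] at h3
  linarith

end Pool.FRT
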